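import Mathlib

set_option autoImplicit false

/-! # Cut-off functions near finitely many points of the plane -/

open MeasureTheory Filter Topology
open scoped ContDiff

namespace Pool.Agent.J4H78.AP

/-- a smooth cut-off near finitely many points -/
lemma cut (P : Finset ℂ) {δ : ℝ} (hδ : 0 < δ) : ∃ (χ : ℂ → ℝ) (r : ℝ), 0 < r ∧
    ContDiff ℝ ∞ χ ∧ (∀ z, 0 ≤ χ z) ∧ (∀ p ∈ P, ∀ z ∈ Metric.ball p r, 1 ≤ χ z) ∧
    Integrable χ ∧ ∫ z, χ z ≤ δ := by
  obtain ⟨r, hr, hr2⟩ : ∃ r : ℝ, 0 < r ∧ (P.card : ℝ) * (Real.pi * r ^ 2) ≤ δ := by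
    have p0 : 0 < ((P.card : ℝ) + 1) * Real.pi := by have := Real.pi_pos; positivity
    refine ⟨min 1 (δ / (((P.card : ℝ) + 1) * Real.pi)), lt_min one_pos (by positivity), ?_⟩
    obtain ⟨q, hq⟩ : ∃ q, q = min 1 (δ / (((P.card : ℝ) + 1) * Real.pi)) := ⟨_, rfl⟩
    rw [← hq]
    have q0 : 0 < q := by rw [hq]; exact lt_min one_pos (by positivity)
    have q1 : q ≤ 1 := by rw [hq]; exact min_le_left _ _
    have q2 : q ≤ δ / (((P.card : ℝ) + 1) * Real.pi) := by rw [hq]; exact min_le_right _ _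
    rw [le_div_iff₀ p0] at q2
    have q3 : q ^ 2 ≤ q := by nlinarith
    have pp := Real.pi_pos
    have c0 : (0 : ℝ) ≤ P.card := Nat.cast_nonneg _
    calc (P.card : ℝ) * (Real.pi * q ^ 2) ≤ (P.card : ℝ) * (Real.pi * q) := by gcongr
      _ ≤ ((P.card : ℝ) + 1) * (Real.pi * q) := by gcongr; linarith
      _ = q * (((P.card : ℝ) + 1) * Real.pi) := by ring
      _ ≤ δ := q2
  let f : ∀ p : ℂ, ContDiffBump p := fun p => ⟨r / 2, r, by positivity, by linarith⟩
  refine ⟨fun z => ∑ p ∈ P, f p z, r / 2, by positivity, ?_, ?_, ?_, ?_, ?_⟩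
  · exact ContDiff.sum fun p _ => (f p).contDiff
  · intro z
    exact Finset.sum_nonneg fun p _ => (f p).nonneg
  · intro p hp z hz
    have h1 : f p z = 1 := (f p).one_of_mem_closedBall (Metric.ball_subset_closedBall hz)
    calc (1 : ℝ) = f p z := h1.symm
      _ ≤ _ := Finset.single_le_sum (f := fun q => f q z) (fun q _ => (f q).nonneg) hp
  · exact integrable_finsetSum _ fun p _ => (f p).integrable
  · rw [integral_finsetSum _ fun p _ => (f p).integrable]
    calc _ ≤ ∑ p ∈ P, Real.pi * r ^ 2 := Finset.sum_le_sum fun p _ => by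
            refine ((f p).integral_le_measure_closedBall volume).trans ?_
            show volume.real (Metric.closedBall p r) ≤ _
            rw [Measure.real, Complex.volume_closedBall]
            simp only [ENNReal.toReal_mul, ENNReal.toReal_pow, ENNReal.toReal_ofReal hr.le]
            have : (NNReal.pi : ENNReal).toReal = Real.pi := by simp
            rw [this]
            linarith
      _ ≤ δ := by rw [Finset.sum_const, nsmul_eq_mul]; exact hr2

end Pool.Agent.J4H78.AP
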